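import Mathlib
import Pool.Agent.H.MP_efc620_co.A

set_option autoImplicit false

namespace Pool.Agent.Results.MP_efc620_co.Counter

open Polynomial

open Classical in
/-- the graphical cycle polynomial -/
noncomputable def cyc {n : ℕ} (G : SimpleGraph (Fin n)) : ℤ[X] :=
  ∑ σ ∈ Finset.univ.filter (fun σ : Equiv.Perm (Fin n) => ∀ v, σ v ≠ v → G.Adj v (σ v)),
    X ^ σ.partition.parts.card

def G : SimpleGraph (Fin 5) := SimpleGraph.fromRel fun u v =>
  (u.val, v.val) ∈ [(0, 1), (1, 2), (2, 3), (0, 4), (1, 4), (2, 4), (3, 4)]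

instance : DecidableRel G.Adj := by unfold G; infer_instance

theorem cnt : ((Finset.univ.filter fun σ : Equiv.Perm (Fin 5) =>
    ∀ v, σ v ≠ v → G.Adj v (σ v)).val.map fun σ => σ.partition.parts.card) =
    Multiset.replicate 2 1 + Multiset.replicate 8 2 + Multiset.replicate 13 3 +
      Multiset.replicate 7 4 + Multiset.replicate 1 5 := by decide +kernel

theorem c4 : ∀ f : Fin 4 → Fin 5, Function.Injective f →
    ¬ ∀ a b, G.Adj (f a) (f b) ↔ (SimpleGraph.cycleGraph 4).Adj a b := by decide +kernel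

theorem c5 : ∀ f : Fin 5 → Fin 5, Function.Injective f →
    ¬ ∀ a b, G.Adj (f a) (f b) ↔ (SimpleGraph.cycleGraph 5).Adj a b := by decide +kernel

theorem result : ∃ (n : ℕ) (G : SimpleGraph (Fin n)), 1 ≤ n ∧
    (∀ m, 4 ≤ m → IsEmpty (SimpleGraph.cycleGraph m ↪g G)) ∧
    ∃ z : ℂ, z.im ≠ 0 ∧ aeval z (cyc G) = 0 := by
  refine ⟨5, G, by norm_num, fun m hm => ⟨fun e => ?_⟩, ?_⟩
  · have := Fintype.card_le_of_embedding e.toEmbedding
    simp only [Fintype.card_fin] at this
    obtain rfl | rfl : m = 4 ∨ m = 5 := by omega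
    · exact c4 e e.injective fun _ _ => e.map_adj_iff
    · exact c5 e e.injective fun _ _ => e.map_adj_iff
  · obtain ⟨z, h1, h2⟩ := Pool.Agent.H.MP_efc620_co.nonreal
    refine ⟨z, h1, ?_⟩
    have e : cyc G = (((Finset.univ.filter fun σ : Equiv.Perm (Fin 5) =>
        ∀ v, σ v ≠ v → G.Adj v (σ v)).val.map fun σ => σ.partition.parts.card).map
          fun k => (X : ℤ[X]) ^ k).sum := by
      rw [Multiset.map_map]
      unfold cyc
      convert Finset.sum_eq_multiset_sum _ _ using 5
      rfl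
    rw [e, cnt]
    simp only [Multiset.map_add, Multiset.map_replicate, Multiset.sum_add, Multiset.sum_replicate,
      map_add, map_nsmul, map_pow, aeval_X]
    simp only [nsmul_eq_mul]
    push_cast
    linear_combination z * h2

end Pool.Agent.Results.MP_efc620_co.Counter
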